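import Pool.Agent.K1H72.CD.Stm

set_option autoImplicit false

namespace Pool.Agent.K1H33.CD

open H974 H12S Finset MeasureTheory
open Pool.Agent.K1H72.CD

theorem step_abs (e : Edg) (u v : Vtx) (h : (src e = u ∧ tgt e = v) ∨ (src e = v ∧ tgt e = u)) :
    |v.1| ≤ |u.1| + 1 ∧ |v.2| ≤ |u.2| + 1 := by
  obtain ⟨x, y, b⟩ := e
  obtain ⟨u1, u2⟩ := u
  obtain ⟨v1, v2⟩ := v
  have key : (v1 = u1 ∨ v1 = u1 + 1 ∨ v1 = u1 - 1) ∧ (v2 = u2 ∨ v2 = u2 + 1 ∨ v2 = u2 - 1) := by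
    cases b <;> rcases h with ⟨h1, h2⟩ | ⟨h1, h2⟩ <;>
      simp only [src_mk, tgt_true, tgt_false, Prod.mk.injEq] at h1 h2 <;> omega
  show |v1| ≤ |u1| + 1 ∧ |v2| ≤ |u2| + 1
  rcases abs_cases v1 with ⟨h1, h2⟩ | ⟨h1, h2⟩ <;> rcases abs_cases u1 with ⟨h3, h4⟩ | ⟨h3, h4⟩ <;>
    rcases abs_cases v2 with ⟨h5, h6⟩ | ⟨h5, h6⟩ <;> rcases abs_cases u2 with ⟨h7, h8⟩ | ⟨h7, h8⟩ <;>
    omega

theorem edge_box (m : ℕ) (e : Edg) (u v : Vtx)
    (h : (src e = u ∧ tgt e = v) ∨ (src e = v ∧ tgt e = u))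
    (hu1 : |u.1| ≤ m) (hu2 : |u.2| ≤ m) (hv1 : |v.1| ≤ m) (hv2 : |v.2| ≤ m) :
    e ∈ boxE m := by
  obtain ⟨x, y, b⟩ := e
  obtain ⟨u1, u2⟩ := u
  obtain ⟨v1, v2⟩ := v
  rw [abs_le] at hu1 hu2 hv1 hv2
  simp only at hu1 hu2 hv1 hv2
  unfold boxE
  cases b
  · rw [mem_RE_false]
    rcases h with ⟨h1, h2⟩ | ⟨h1, h2⟩ <;>
      simp only [src_mk, tgt_true, tgt_false, Prod.mk.injEq] at h1 h2 <;> omega
  · rw [mem_RE_true]
    rcases h with ⟨h1, h2⟩ | ⟨h1, h2⟩ <;>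
      simp only [src_mk, tgt_true, tgt_false, Prod.mk.injEq] at h1 h2 <;> omega

theorem walk_box (ω : sqLattice.edgeSet → Bool) (m : ℕ) (h0 : ω (toE e1) = false)
    (u v : ℤ × ℤ) (p : (openGraph ω).Walk u v) (h1 : |u.1| + p.length ≤ m)
    (h2 : |u.2| + p.length ≤ m) : Reach ((opn ω ∩ ↑(boxE m)) \ {e1}) u v := by
  induction p with
  | nil => exact Relation.ReflTransGen.refl
  | @cons u w v h p ih =>
    obtain ⟨e, he, hc⟩ := (openGraph_adj ω u w).1 h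
    obtain ⟨s1, s2⟩ := step_abs e u w hc
    rw [SimpleGraph.Walk.length_cons] at h1 h2
    push_cast at h1 h2
    have hl : (0 : ℤ) ≤ p.length := Int.natCast_nonneg _
    refine Relation.ReflTransGen.head ?_ (ih (by linarith) (by linarith))
    refine ⟨e, ⟨⟨he, ?_⟩, ?_⟩, hc⟩
    · exact edge_box m e u w hc (by linarith) (by linarith) (by linarith) (by linarith)
    · rintro rfl
      have he' : ω (toE e1) = true := he
      rw [h0] at he'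
      exact Bool.false_ne_true he'

theorem t_GEO : Pool.Agent.K1H72.CD.S_GEO := by
  intro ω m h0 hr hU
  by_contra hcon
  push Not at hcon
  obtain ⟨p, hp⟩ := hr.exists_walk_length_eq_dist
  apply hU
  refine walk_box ω m h0 _ _ p ?_ ?_
  · show |(0 : ℤ)| + p.length ≤ m
    rw [abs_zero, zero_add, hp]
    exact_mod_cast hcon.le
  · show |(0 : ℤ)| + p.length ≤ m
    rw [abs_zero, zero_add, hp]
    exact_mod_cast hcon.le

end Pool.Agent.K1H33.CD
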